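import Mathlib

open Filter Topology RestrictedProduct

namespace Pool.Agent.L0h61.MUM

/-- A family of finite abelian groups of odd exponent with perfect alternating forms and
Lagrangian subgroups. -/
structure Dat (ι : Type) (K : ι → Type) [∀ i, AddCommGroup (K i)] where
  L : ∀ i, AddSubgroup (K i)
  B : ∀ i, K i →+ K i →+ UnitAddCircle
  N : ι → ℕ
  odd : ∀ i, Odd (N i)
  tors : ∀ i (x : K i), N i • x = 0
  alt : ∀ i x, B i x x = 0
  perp : ∀ i x, x ∈ L i ↔ ∀ y ∈ L i, B i x y = 0
  perfect : ∀ i (χ : K i →+ UnitAddCircle), ∃ x, ∀ y, B i x y = χ y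
  nondeg : ∀ i x, (∀ y, B i x y = 0) → x = 0

variable {ι : Type} {K : ι → Type} [∀ i, AddCommGroup (K i)] [∀ i, TopologicalSpace (K i)]
  [∀ i, DiscreteTopology (K i)] [∀ i, Finite (K i)] (D : Dat ι K)

/-- the restricted product -/
abbrev Dat.X {ι : Type} {K : ι → Type} [∀ i, AddCommGroup (K i)] (D : Dat ι K) : Type :=
  Πʳ i, [K i, D.L i]

instance factOpen (D : Dat ι K) : Fact (∀ i, IsOpen (D.L i : Set (K i))) :=
  ⟨fun _ => isOpen_discrete _⟩

omit [∀ i, DiscreteTopology (K i)] [∀ i, Finite (K i)] [∀ i, TopologicalSpace (K i)] in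
lemma supp_fin (x y : D.X) : (Function.support fun i => D.B i (x i) (y i)).Finite := by
  have h : ∀ᶠ i in cofinite, D.B i (x i) (y i) = 0 := by
    filter_upwards [x.2, y.2] with i hx hy
    exact (D.perp i (x i)).1 hx _ hy
  exact h

/-- the global form -/
noncomputable def Dat.gB {ι : Type} {K : ι → Type} [∀ i, AddCommGroup (K i)] (D : Dat ι K)
    (x y : D.X) : UnitAddCircle := ∑ᶠ i, D.B i (x i) (y i)

omit [∀ i, DiscreteTopology (K i)] [∀ i, Finite (K i)] [∀ i, TopologicalSpace (K i)] in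
lemma gB_add_left (x x' y : D.X) : D.gB (x + x') y = D.gB x y + D.gB x' y := by
  unfold Dat.gB
  rw [← finsum_add_distrib (supp_fin D x y) (supp_fin D x' y)]
  refine finsum_congr fun i => ?_
  simp

omit [∀ i, DiscreteTopology (K i)] [∀ i, Finite (K i)] [∀ i, TopologicalSpace (K i)] in
lemma gB_add_right (x y y' : D.X) : D.gB x (y + y') = D.gB x y + D.gB x y' := by
  unfold Dat.gB
  rw [← finsum_add_distrib (supp_fin D x y) (supp_fin D x y')]
  refine finsum_congr fun i => ?_
  simp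

omit [∀ i, DiscreteTopology (K i)] [∀ i, Finite (K i)] [∀ i, TopologicalSpace (K i)] in
lemma gB_self (x : D.X) : D.gB x x = 0 := by
  unfold Dat.gB
  simp [D.alt]

omit [∀ i, DiscreteTopology (K i)] [∀ i, Finite (K i)] [∀ i, TopologicalSpace (K i)] in
lemma gB_swap (x y : D.X) : D.gB y x = - D.gB x y := by
  have h := gB_self D (x + y)
  rw [gB_add_left, gB_add_right, gB_add_right, gB_self, gB_self] at h
  rw [zero_add, add_zero] at h
  exact (neg_eq_of_add_eq_zero_right h).symm

omit [∀ i, DiscreteTopology (K i)] [∀ i, Finite (K i)] [∀ i, TopologicalSpace (K i)] in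
lemma gB_eq_sum (x y : D.X) (F : Finset ι) (h : ∀ i ∉ F, D.B i (x i) (y i) = 0) :
    D.gB x y = ∑ i ∈ F, D.B i (x i) (y i) := by
  unfold Dat.gB
  refine finsum_eq_sum_of_support_subset _ ?_
  intro i hi
  by_contra hiF
  exact hi (h i hiF)

omit [∀ i, Finite (K i)] in
lemma gB_continuous : Continuous fun q : D.X × D.X => D.gB q.1 q.2 := by
  rw [continuous_dom_prod (fun i => isOpen_discrete _) (fun i => isOpen_discrete _)]
  intro S hS
  have hfin : Sᶜ.Finite := by
    rw [le_principal_iff] at hS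
    exact hS
  have : ((fun q : D.X × D.X => D.gB q.1 q.2) ∘
      (Prod.map (inclusion K (fun i => (D.L i : Set (K i))) hS)
        (inclusion K (fun i => (D.L i : Set (K i))) hS)))
      = fun q => ∑ i ∈ hfin.toFinset, D.B i (q.1 i) (q.2 i) := by
    funext q
    show D.gB (inclusion K (fun i => (D.L i : Set (K i))) hS q.1)
      (inclusion K (fun i => (D.L i : Set (K i))) hS q.2) = _
    rw [gB_eq_sum D _ _ hfin.toFinset]
    · rfl
    · intro i hi
      have hiS : i ∈ S := by
        by_contra h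
        exact hi (hfin.mem_toFinset.2 h)
      have h1 : q.1 i ∈ D.L i := q.1.2 hiS
      have h2 : q.2 i ∈ D.L i := q.2.2 hiS
      exact (D.perp i _).1 h1 _ h2
  rw [this]
  refine continuous_finset_sum _ fun i _ => ?_
  have hc : Continuous fun z : K i × K i => D.B i z.1 z.2 := continuous_of_discreteTopology
  exact hc.comp (((continuous_eval i).comp continuous_fst).prodMk
    ((continuous_eval i).comp continuous_snd))

omit [∀ i, DiscreteTopology (K i)] [∀ i, Finite (K i)] in
/-- basic neighbourhoods of zero -/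
lemma nhds_basic {U : Set D.X} (hU : U ∈ 𝓝 (0 : D.X)) :
    ∃ F : Finset ι, ∀ x : D.X, (∀ i ∈ F, x i = 0) → (∀ i, x i ∈ D.L i) → x ∈ U := by
  classical
  set j : (Π i, D.L i) → D.X := structureMap K (fun i => (D.L i : Set (K i))) cofinite with hj
  have hjc : Continuous j := (isEmbedding_structureMap).continuous
  have hj0 : j 0 = 0 := by
    ext i; rfl
  have h1 : j ⁻¹' U ∈ 𝓝 (0 : Π i, D.L i) := by
    apply hjc.continuousAt.preimage_mem_nhds
    rw [hj0]; exact hU
  rw [nhds_pi, Filter.mem_pi] at h1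
  obtain ⟨I, hI, t, ht, hsub⟩ := h1
  refine ⟨hI.toFinset, fun x hx0 hxL => ?_⟩
  have hx : j (fun i => ⟨x i, hxL i⟩) = x := by
    ext i; rfl
  rw [← hx]
  apply hsub
  intro i hi
  have : (⟨x i, hxL i⟩ : D.L i) = 0 := by
    apply Subtype.ext
    exact hx0 i (hI.mem_toFinset.2 hi)
  show (⟨x i, hxL i⟩ : D.L i) ∈ t i
  rw [this]
  exact mem_of_mem_nhds (ht i)

omit [∀ i, Finite (K i)] in
/-- basic neighbourhoods are neighbourhoods -/
lemma basic_nhds (F : Finset ι) :
    {x : D.X | (∀ i ∈ F, x i = 0) ∧ (∀ i, x i ∈ D.L i)} ∈ 𝓝 (0 : D.X) := by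
  have h1 : IsOpen {x : D.X | ∀ i, x i ∈ D.L i} :=
    isOpen_forall_mem (fun i => isOpen_discrete _)
  have h2 : IsOpen {x : D.X | ∀ i ∈ F, x i = 0} := by
    have : {x : D.X | ∀ i ∈ F, x i = 0} = ⋂ i ∈ F, {x : D.X | x i = 0} := by
      ext x; simp
    rw [this]
    refine isOpen_biInter_finset fun i _ => ?_
    exact (isOpen_discrete ({0} : Set (K i))).preimage (continuous_eval i)
  have h3 : {x : D.X | (∀ i ∈ F, x i = 0) ∧ (∀ i, x i ∈ D.L i)}
      = {x : D.X | ∀ i ∈ F, x i = 0} ∩ {x : D.X | ∀ i, x i ∈ D.L i} := rfl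
  rw [h3]
  refine (h2.inter h1).mem_nhds ⟨fun i _ => rfl, fun i => ?_⟩
  exact (D.L i).zero_mem

/-- a subgroup in a small arc is trivial -/
lemma arc_trivial {x : UnitAddCircle} 
    (h : ∀ n : ℕ, AddCircle.toCircle (n • x) ∈ Circle.centeredArc (Real.pi / 2)) : x = 0 := by
  apply AddCircle.injective_toCircle (one_ne_zero)
  rw [AddCircle.toCircle_zero]
  refine Circle.eq_one_of_forall_pow_mem_centeredArc_pi_div_two fun n hn => ?_
  rw [← AddCircle.toCircle_nsmul]
  exact h n

end Pool.Agent.L0h61.MUM
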