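import Mathlib
import Pool.Agent.L0h61.MUM.Glob

open Filter Topology RestrictedProduct

namespace Pool.Agent.L0h61.MUM

variable {ι : Type} [DecidableEq ι] {K : ι → Type} [∀ i, AddCommGroup (K i)] 

/-- the inclusion of a component -/
noncomputable def sg (D : Dat ι K) (i : ι) : K i →+ D.X where
  toFun := RestrictedProduct.single D.L i
  map_zero' := RestrictedProduct.single_zero D.L i
  map_add' := RestrictedProduct.single_add D.L i

lemma sg_same (D : Dat ι K) (i : ι) (x : K i) : sg D i x i = x :=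
  RestrictedProduct.single_eq_same D.L i x

lemma sg_ne (D : Dat ι K) {i j : ι} (h : j ≠ i) (x : K i) : sg D i x j = 0 :=
  RestrictedProduct.single_eq_of_ne D.L x h

lemma gB_sg_left (D : Dat ι K) (i : ι) (x : K i) (y : D.X) :
    D.gB (sg D i x) y = D.B i x (y i) := by
  rw [gB_eq_sum D _ _ {i}]
  · rw [Finset.sum_singleton, sg_same]
  · intro j hj
    rw [sg_ne D (by simpa using hj)]
    simp

lemma gB_sg_right (D : Dat ι K) (i : ι) (x : D.X) (y : K i) :
    D.gB x (sg D i y) = D.B i (x i) y := by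
  rw [gB_eq_sum D _ _ {i}]
  · rw [Finset.sum_singleton, sg_same]
  · intro j hj
    rw [sg_ne D (by simpa using hj)]
    simp

/-- coordinates of a finite sum of singles -/
lemma sum_sg_apply (D : Dat ι K) (F : Finset ι) (y : D.X) (j : ι) :
    (∑ i ∈ F, sg D i (y i)) j = if j ∈ F then y j else 0 := by
  have h : (∑ i ∈ F, sg D i (y i)) j
      = RestrictedProduct.evalAddMonoidHom (𝓕 := cofinite) (B := D.L) K j (∑ i ∈ F, sg D i (y i)) := rfl
  rw [h, map_sum]
  have h2 : ∀ i ∈ F, (RestrictedProduct.evalAddMonoidHom (𝓕 := cofinite) (B := D.L) K j) (sg D i (y i)) =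
      if j = i then y j else 0 := by
    intro i _
    show sg D i (y i) j = _
    split_ifs with hji
    · subst hji; exact sg_same D j _
    · exact sg_ne D hji _
  rw [Finset.sum_congr rfl h2]
  rw [Finset.sum_ite_eq]

/-- decomposition of an element -/
lemma decomp (D : Dat ι K) (F : Finset ι) (y : D.X) : ∃ (F' : Finset ι) (y' : D.X), F ⊆ F' ∧
    y = (∑ i ∈ F', sg D i (y i)) + y' ∧ (∀ i ∈ F', y' i = 0) ∧ (∀ i, y' i ∈ D.L i) := by
  have hfin : {i | ¬ (y i ∈ D.L i)}.Finite := y.2
  refine ⟨F ∪ hfin.toFinset, y - ∑ i ∈ (F ∪ hfin.toFinset), sg D i (y i),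
    Finset.subset_union_left, by abel, ?_, ?_⟩
  · intro i hi
    show y i - (∑ i ∈ (F ∪ hfin.toFinset), sg D i (y i)) i = 0
    rw [sum_sg_apply, if_pos hi, sub_self]
  · intro i
    show y i - (∑ i ∈ (F ∪ hfin.toFinset), sg D i (y i)) i ∈ D.L i
    rw [sum_sg_apply]
    split_ifs with hi
    · rw [sub_self]; exact (D.L i).zero_mem
    · rw [sub_zero]
      by_contra hne
      exact hi (Finset.mem_union_right _ (hfin.mem_toFinset.2 hne))

variable [∀ i, TopologicalSpace (K i)]
  [∀ i, DiscreteTopology (K i)] 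

/-- a continuous character is trivial on a basic subgroup -/
lemma char_basic (D : Dat ι K) (χ : D.X →+ UnitAddCircle) (hχ : Continuous χ) :
    ∃ F : Finset ι, ∀ x : D.X, (∀ i ∈ F, x i = 0) → (∀ i, x i ∈ D.L i) → χ x = 0 := by
  have hU : (fun x => AddCircle.toCircle (χ x)) ⁻¹' (Circle.centeredArc (Real.pi / 2)) ∈ 𝓝 (0 : D.X) := by
    have hc : Continuous (fun x => AddCircle.toCircle (χ x)) := AddCircle.continuous_toCircle.comp hχ
    apply (Circle.isOpen_centeredArc _).preimage hc |>.mem_nhds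
    show AddCircle.toCircle (χ 0) ∈ Circle.centeredArc (Real.pi / 2)
    rw [map_zero, AddCircle.toCircle_zero]
    rw [Circle.mem_centeredArc (by linarith [Real.pi_pos])]
    simp [Real.pi_pos]
  obtain ⟨F, hF⟩ := nhds_basic D hU
  refine ⟨F, fun x h0 hL => arc_trivial fun n => ?_⟩
  rw [← map_nsmul]
  have := hF (n • x) (fun i hi => ?_) (fun i => ?_)
  · exact this
  · show n • (x i) = 0
    rw [h0 i hi, smul_zero]
  · show n • (x i) ∈ D.L i
    exact (D.L i).nsmul_mem (hL i) n

/-- every continuous character is represented -/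
lemma gperfect (D : Dat ι K) (χ : D.X →+ UnitAddCircle) (hχ : Continuous χ) :
    ∃ x : D.X, ∀ y, D.gB x y = χ y := by
  obtain ⟨F, hF⟩ := char_basic D χ hχ
  choose x hx using fun i => D.perfect i (χ.comp (sg D i))
  have hxL : ∀ i ∉ F, x i ∈ D.L i := by
    intro i hi
    rw [D.perp]
    intro y hy
    rw [hx i y]
    show χ (sg D i y) = 0
    apply hF
    · intro j hj
      exact sg_ne D (fun h => hi (by rw [← h]; exact hj)) y
    · intro j
      by_cases hji : j = i
      · subst hji; rw [sg_same]; exact hy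
      · rw [sg_ne D hji]; exact (D.L j).zero_mem
  have hfin : ∀ᶠ i in cofinite, x i ∈ D.L i := by
    have : {i | ¬ (x i ∈ D.L i)} ⊆ (F : Set ι) := by
      intro i hi
      by_contra h
      exact hi (hxL i h)
    exact F.finite_toSet.subset this
  obtain ⟨X0, hX0⟩ : ∃ X0 : D.X, ∀ i, X0 i = x i := ⟨⟨x, hfin⟩, fun _ => rfl⟩
  refine ⟨X0, fun y => ?_⟩
  obtain ⟨F', y', hFF', hy, hy0, hyL⟩ := decomp D F y
  have e1 : D.gB X0 y' = 0 := by
    rw [gB_eq_sum D _ _ ∅]
    · simp
    · intro i _
      by_cases hi : i ∈ F'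
      · rw [hy0 i hi]; simp
      · have : x i ∈ D.L i := hxL i (fun h => hi (hFF' h))
        rw [hX0]; exact (D.perp i _).1 this _ (hyL i)
  have e2 : χ y' = 0 := hF y' (fun i hi => hy0 i (hFF' hi)) hyL
  have hom : ∀ (s : Finset ι), D.gB X0 (∑ i ∈ s, sg D i (y i)) = χ (∑ i ∈ s, sg D i (y i)) := by
    intro s
    induction s using Finset.induction_on with
    | empty =>
      simp only [Finset.sum_empty, map_zero]
      have := gB_add_right D X0 0 0
      rw [add_zero] at this
      simpa using this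
    | insert a s ha ih =>
      rw [Finset.sum_insert ha, gB_add_right, map_add, ih, gB_sg_right]
      congr 1
      rw [hX0]
      exact hx a (y a)
  rw [hy, gB_add_right, map_add, e1, e2, hom]

omit [∀ i, TopologicalSpace (K i)] [∀ i, DiscreteTopology (K i)] in
lemma gnondeg (D : Dat ι K) (x : D.X) (h : ∀ y, D.gB x y = 0) : x = 0 := by
  ext i
  apply D.nondeg
  intro y
  rw [← gB_sg_right]
  exact h _

end Pool.Agent.L0h61.MUM
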