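import Mathlib
import Pool.Agent.L0h61.MUM.Perf

open Filter Topology RestrictedProduct
open scoped commutatorElement

namespace Pool.Agent.L0h61.MUM

section alg

variable {ι : Type} {K : ι → Type} [∀ i, AddCommGroup (K i)]

/-- the circle valued form -/
noncomputable def cc (D : Dat ι K) (x y : D.X) : Circle := AddCircle.toCircle (D.gB x y)

lemma cc_add_left (D : Dat ι K) (x x' y : D.X) : cc D (x + x') y = cc D x y * cc D x' y := by
  unfold cc; rw [gB_add_left, AddCircle.toCircle_add]

lemma cc_add_right (D : Dat ι K) (x y y' : D.X) : cc D x (y + y') = cc D x y * cc D x y' := by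
  unfold cc; rw [gB_add_right, AddCircle.toCircle_add]

lemma cc_self (D : Dat ι K) (x : D.X) : cc D x x = 1 := by
  unfold cc; rw [gB_self, AddCircle.toCircle_zero]

lemma cc_swap (D : Dat ι K) (x y : D.X) : cc D y x = (cc D x y)⁻¹ := by
  unfold cc; rw [gB_swap, AddCircle.toCircle_neg]

lemma cc_zero_left (D : Dat ι K) (y : D.X) : cc D 0 y = 1 := by
  have h := cc_add_left D 0 0 y
  rw [add_zero] at h
  exact left_eq_mul.mp h

lemma cc_zero_right (D : Dat ι K) (y : D.X) : cc D y 0 = 1 := by
  rw [cc_swap, cc_zero_left, inv_one]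

lemma cc_neg_left (D : Dat ι K) (x y : D.X) : cc D (-x) y = (cc D x y)⁻¹ := by
  have h := cc_add_left D (-x) x y
  rw [neg_add_cancel, cc_zero_left] at h
  exact eq_inv_of_mul_eq_one_left h.symm

/-- the group -/
def Mum (D : Dat ι K) : Type := Circle × D.X

noncomputable instance instMumMul (D : Dat ι K) : Mul (Mum D) :=
  ⟨fun a b => (a.1 * b.1 * cc D a.2 b.2, a.2 + b.2)⟩

noncomputable instance instMumOne (D : Dat ι K) : One (Mum D) := ⟨(1, 0)⟩

noncomputable instance instMumInv (D : Dat ι K) : Inv (Mum D) := ⟨fun a => (a.1⁻¹, -a.2)⟩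

lemma Mum.mul_def (D : Dat ι K) (a b : Mum D) :
    a * b = ((a.1 * b.1 * cc D a.2 b.2, a.2 + b.2) : Circle × D.X) := rfl

lemma Mum.one_def (D : Dat ι K) : (1 : Mum D) = ((1, 0) : Circle × D.X) := rfl

lemma Mum.inv_def (D : Dat ι K) (a : Mum D) : a⁻¹ = ((a.1⁻¹, -a.2) : Circle × D.X) := rfl

noncomputable instance instMumGroup (D : Dat ι K) : Group (Mum D) :=
  Group.ofLeftAxioms
    (by
      intro a b c
      refine Prod.ext ?_ ?_
      · show a.1 * b.1 * cc D a.2 b.2 * c.1 * cc D (a.2 + b.2) c.2
          = a.1 * (b.1 * c.1 * cc D b.2 c.2) * cc D a.2 (b.2 + c.2)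
        rw [cc_add_left, cc_add_right]
        simp only [mul_assoc, mul_comm, mul_left_comm]
      · show a.2 + b.2 + c.2 = a.2 + (b.2 + c.2)
        exact add_assoc _ _ _)
    (by
      intro a
      refine Prod.ext ?_ ?_
      · show 1 * a.1 * cc D 0 a.2 = a.1
        rw [cc_zero_left, one_mul, mul_one]
      · show 0 + a.2 = a.2
        exact zero_add _)
    (by
      intro a
      refine Prod.ext ?_ ?_
      · show a.1⁻¹ * a.1 * cc D (-a.2) a.2 = 1
        rw [cc_neg_left, cc_self, inv_one, mul_one, inv_mul_cancel]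
      · show -a.2 + a.2 = 0
        exact neg_add_cancel _)

/-- the projection -/
noncomputable def prj (D : Dat ι K) : Mum D →* Multiplicative D.X where
  toFun a := Multiplicative.ofAdd a.2
  map_one' := rfl
  map_mul' _ _ := rfl

lemma commute_iff (D : Dat ι K) (a b : Mum D) :
    a * b = b * a ↔ cc D a.2 b.2 ^ 2 = 1 := by
  constructor
  · intro h
    have h1 : a.1 * b.1 * cc D a.2 b.2 = b.1 * a.1 * cc D b.2 a.2 := congrArg Prod.fst h
    rw [mul_comm b.1 a.1, cc_swap D a.2 b.2] at h1
    have h2 := mul_left_cancel h1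
    rw [pow_two]
    exact mul_eq_one_iff_eq_inv.2 h2
  · intro h
    refine Prod.ext ?_ ?_
    · show a.1 * b.1 * cc D a.2 b.2 = b.1 * a.1 * cc D b.2 a.2
      rw [mul_comm b.1 a.1, cc_swap D a.2 b.2]
      congr 1
      rw [pow_two] at h
      exact mul_eq_one_iff_eq_inv.1 h
    · show a.2 + b.2 = b.2 + a.2
      exact add_comm _ _

lemma commutator_eq (D : Dat ι K) (a b : Mum D) :
    ⁅a, b⁆ = (show Mum D from ((cc D a.2 b.2 ^ 2, 0) : Circle × D.X)) := by
  rw [commutatorElement_def]
  rw [mul_assoc, ← mul_inv_rev]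
  refine mul_inv_eq_of_eq_mul ?_
  refine Prod.ext ?_ ?_
  · show a.1 * b.1 * cc D a.2 b.2 = cc D a.2 b.2 ^ 2 * (b.1 * a.1 * cc D b.2 a.2) * cc D 0 (b.2 + a.2)
    rw [cc_zero_left, mul_one, mul_comm b.1 a.1, cc_swap D a.2 b.2, pow_two]
    have : cc D a.2 b.2 * cc D a.2 b.2 * (a.1 * b.1 * (cc D a.2 b.2)⁻¹)
      = a.1 * b.1 * cc D a.2 b.2 * (cc D a.2 b.2 * (cc D a.2 b.2)⁻¹) := by
      simp only [mul_assoc, mul_comm, mul_left_comm]
    rw [this, mul_inv_cancel, mul_one]
  · show a.2 + b.2 = 0 + (b.2 + a.2)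
    rw [zero_add, add_comm]

/-- halving in a component -/
lemma half_comp (D : Dat ι K) (i : ι) (x : K i) :
    (((D.N i + 1) / 2) • x) + (((D.N i + 1) / 2) • x) = x := by
  obtain ⟨k, hk⟩ := D.odd i
  have h1 : (D.N i + 1) / 2 = k + 1 := by omega
  rw [h1, ← add_nsmul]
  have h2 : k + 1 + (k + 1) = D.N i + 1 := by omega
  rw [h2, add_nsmul, D.tors, zero_add, one_nsmul]

lemma no_two (D : Dat ι K) (i : ι) (x : K i) (h : x + x = 0) : x = 0 := by
  have h1 := half_comp D i x
  rw [← nsmul_add, h, nsmul_zero] at h1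
  exact h1.symm

/-- halving -/
noncomputable def half (D : Dat ι K) (x : D.X) : D.X :=
  ⟨fun i => ((D.N i + 1) / 2) • x i, by
    filter_upwards [x.2] with i hi
    exact (D.L i).nsmul_mem hi _⟩

lemma half_add (D : Dat ι K) (x : D.X) : half D x + half D x = x := by
  ext i
  exact half_comp D i (x i)

lemma cc_sq (D : Dat ι K) (x y : D.X) : cc D x y ^ 2 = cc D (x + x) y := by
  rw [cc_add_left, pow_two]

lemma center_iff [DecidableEq ι] (D : Dat ι K) (a : Mum D) :
    a ∈ Subgroup.center (Mum D) ↔ a.2 = 0 := by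
  rw [Subgroup.mem_center_iff]
  constructor
  · intro h
    have h1 : a.2 + a.2 = 0 := by
      apply gnondeg
      intro y
      have h2 := h ((1, y) : Circle × D.X)
      have h3 := (commute_iff D a ((1, y) : Circle × D.X)).1 h2.symm
      change cc D a.2 y ^ 2 = 1 at h3
      rw [cc_sq] at h3
      apply AddCircle.injective_toCircle one_ne_zero
      rw [AddCircle.toCircle_zero]
      exact h3
    ext i
    apply no_two D i
    have := congrArg (fun z : D.X => z i) h1
    exact this
  · intro h b
    rw [commute_iff, h, cc_zero_right, one_pow]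

lemma center_prj [DecidableEq ι] (D : Dat ι K) (a : Mum D) :
    a ∈ Subgroup.center (Mum D) ↔ prj D a = 1 := by
  rw [center_iff]; rfl

end alg

section top

variable {ι : Type} {K : ι → Type} [∀ i, AddCommGroup (K i)] [∀ i, TopologicalSpace (K i)]
  [∀ i, DiscreteTopology (K i)]

noncomputable instance instMumTop (D : Dat ι K) : TopologicalSpace (Mum D) :=
  inferInstanceAs (TopologicalSpace (Circle × D.X))

lemma cc_continuous (D : Dat ι K) : Continuous fun q : D.X × D.X => cc D q.1 q.2 :=
  AddCircle.continuous_toCircle.comp (gB_continuous D)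

instance instT2 (D : Dat ι K) : T2Space (Mum D) :=
  inferInstanceAs (T2Space (Circle × D.X))

instance instLC [∀ i, Finite (K i)] (D : Dat ι K) : LocallyCompactSpace (Mum D) :=
  inferInstanceAs (LocallyCompactSpace (Circle × D.X))

instance instTG (D : Dat ι K) : IsTopologicalGroup (Mum D) where
  continuous_mul := by
    have h1 : Continuous fun q : (Circle × D.X) × (Circle × D.X) =>
        ((q.1.1 * q.2.1 * cc D q.1.2 q.2.2, q.1.2 + q.2.2) : Circle × D.X) := by
      refine Continuous.prodMk ?_ ?_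
      · refine Continuous.mul ?_ ?_
        · fun_prop
        · exact (cc_continuous D).comp
            ((continuous_snd.comp continuous_fst).prodMk (continuous_snd.comp continuous_snd))
      · exact (continuous_snd.comp continuous_fst).add (continuous_snd.comp continuous_snd)
    exact h1
  continuous_inv := by
    have h1 : Continuous fun q : Circle × D.X => ((q.1⁻¹, -q.2) : Circle × D.X) := by
      refine Continuous.prodMk ?_ ?_
      · fun_prop
      · exact continuous_snd.neg
    exact h1

end top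

end Pool.Agent.L0h61.MUM
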