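import Mathlib
import Pool.Agent.L0h61.MUM.Grp

open Filter Topology RestrictedProduct
open scoped commutatorElement

namespace Pool.Agent.L0h61.MUM

variable {ι : Type} {K : ι → Type} [∀ i, AddCommGroup (K i)] [∀ i, TopologicalSpace (K i)]
  [∀ i, DiscreteTopology (K i)] [∀ i, Finite (K i)]

omit [∀ i, DiscreteTopology (K i)] in
lemma compact_CF [∀ i, DiscreteTopology (K i)] (D : Dat ι K) (F : Finset ι) :
    IsCompact {x : D.X | ∀ i ∉ F, x i ∈ D.L i} := by
  have hS : cofinite ≤ 𝓟 ((F : Set ι)ᶜ) := by
    rw [le_principal_iff]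
    show ((F : Set ι)ᶜ)ᶜ.Finite
    rw [compl_compl]; exact F.finite_toSet
  have hcl : IsClosed (Set.range (DFunLike.coe : Πʳ i, [K i, D.L i]_[𝓟 ((F : Set ι)ᶜ)] → Π i, K i)) := by
    rw [range_coe_principal]
    exact isClosed_set_pi fun i _ => isClosed_discrete _
  have hemb : IsClosedEmbedding
      (DFunLike.coe : Πʳ i, [K i, D.L i]_[𝓟 ((F : Set ι)ᶜ)] → Π i, K i) :=
    ⟨isEmbedding_coe_of_principal, hcl⟩
  haveI : CompactSpace (Πʳ i, [K i, D.L i]_[𝓟 ((F : Set ι)ᶜ)]) := hemb.compactSpace
  have h2 : IsCompact (Set.range (inclusion K (fun i => (D.L i : Set (K i))) hS)) :=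
    isCompact_range (continuous_inclusion hS)
  rw [range_inclusion] at h2
  have h3 : {x : D.X | ∀ i ∉ F, x i ∈ D.L i}
      = {x | ∀ᶠ i in 𝓟 ((F : Set ι)ᶜ), x i ∈ (D.L i : Set (K i))} := by
    ext x
    simp only [Set.mem_setOf_eq, eventually_principal]
    rfl
  rw [h3]
  exact h2

omit [∀ i, Finite (K i)] in
/-- the map to the dual -/
noncomputable def dmap (D : Dat ι K) (x : D.X) : Multiplicative D.X →ₜ* Circle where
  toFun y := cc D x (Multiplicative.toAdd y) ^ 2
  map_one' := by
    show cc D x 0 ^ 2 = 1
    rw [cc_zero_right, one_pow]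
  map_mul' y y' := by
    show cc D x (Multiplicative.toAdd y + Multiplicative.toAdd y') ^ 2 = _
    rw [cc_add_right, mul_pow]
  continuous_toFun := by
    have h1 : Continuous fun y : D.X => cc D x y ^ 2 :=
      ((cc_continuous D).comp (continuous_const.prodMk continuous_id)).pow 2
    exact h1

omit [∀ i, Finite (K i)] in
/-- the map to the dual as a homomorphism -/
noncomputable def dmapHom (D : Dat ι K) :
    Multiplicative D.X →* PontryaginDual (Multiplicative D.X) where
  toFun x := dmap D (Multiplicative.toAdd x)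
  map_one' := by
    apply PontryaginDual.ext
    intro y
    show cc D 0 (Multiplicative.toAdd y) ^ 2 = 1
    rw [cc_zero_left, one_pow]
  map_mul' x x' := by
    apply PontryaginDual.ext
    intro y
    show cc D (Multiplicative.toAdd x + Multiplicative.toAdd x') (Multiplicative.toAdd y) ^ 2
      = cc D (Multiplicative.toAdd x) (Multiplicative.toAdd y) ^ 2
        * cc D (Multiplicative.toAdd x') (Multiplicative.toAdd y) ^ 2
    rw [cc_add_left, mul_pow]

omit [∀ i, Finite (K i)] in
lemma dmapHom_apply (D : Dat ι K) (x y : Multiplicative D.X) :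
    dmapHom D x y = cc D (Multiplicative.toAdd x) (Multiplicative.toAdd y) ^ 2 := rfl

omit [∀ i, Finite (K i)] in
lemma dmapHom_continuous (D : Dat ι K) : Continuous (dmapHom D) := by
  have h : Continuous fun x : D.X => dmap D x := by
    apply ContinuousMonoidHom.continuous_of_continuous_uncurry
    have h1 : Continuous fun q : D.X × D.X => cc D q.1 q.2 ^ 2 := (cc_continuous D).pow 2
    exact h1
  exact h

omit [∀ i, Finite (K i)] in
lemma cc_sq_eq_one_comp [DecidableEq ι] (D : Dat ι K) (x : D.X) (i : ι) (y : K i)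
    (h : cc D x (sg D i y) ^ 2 = 1) : D.B i (x i) y = 0 := by
  rw [cc_sq] at h
  have h1 : D.gB (x + x) (sg D i y) = 0 := by
    apply AddCircle.injective_toCircle one_ne_zero
    rw [AddCircle.toCircle_zero]; exact h
  rw [gB_sg_right] at h1
  have h2 : D.B i (x i + x i) y = 0 := h1
  rw [map_add, AddMonoidHom.add_apply] at h2
  have h3 : D.N i • D.B i (x i) y = 0 := by
    rw [← map_nsmul (D.B i (x i)), D.tors, map_zero]
  obtain ⟨k, hk⟩ := D.odd i
  rw [hk, add_nsmul, one_nsmul, mul_comm, mul_nsmul, two_nsmul] at h3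
  rw [← nsmul_add, h2] at h3
  simpa using h3

omit [∀ i, Finite (K i)] in
lemma dmapHom_injective [DecidableEq ι] (D : Dat ι K) : Function.Injective (dmapHom D) := by
  rw [injective_iff_map_eq_one]
  intro x hx
  have h0 : (Multiplicative.toAdd x : D.X) = 0 := by
    ext i
    apply D.nondeg
    intro y
    apply cc_sq_eq_one_comp D
    have := congrArg (fun f : PontryaginDual (Multiplicative D.X) =>
      f (Multiplicative.ofAdd (sg D i y))) hx
    exact this
  exact h0

/-- inverse of toCircle -/
noncomputable def lg : Circle → UnitAddCircle := (AddCircle.homeomorphCircle one_ne_zero).symm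

lemma toCircle_lg (z : Circle) : AddCircle.toCircle (lg z) = z := by
  have := (AddCircle.homeomorphCircle (T := 1) one_ne_zero).apply_symm_apply z
  rw [AddCircle.homeomorphCircle_apply] at this
  exact this

lemma lg_mul (z w : Circle) : lg (z * w) = lg z + lg w := by
  apply AddCircle.injective_toCircle one_ne_zero
  rw [toCircle_lg, AddCircle.toCircle_add, toCircle_lg, toCircle_lg]

lemma lg_continuous : Continuous lg := (AddCircle.homeomorphCircle one_ne_zero).symm.continuous

omit [∀ i, Finite (K i)] in
lemma dmapHom_surjective [DecidableEq ι] (D : Dat ι K) : Function.Surjective (dmapHom D) := by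
  intro χ
  have hχc : Continuous (fun y : D.X => χ (Multiplicative.ofAdd y)) := by
    have : Continuous (χ : Multiplicative D.X → Circle) := map_continuous χ
    exact this
  set χ' : D.X →+ UnitAddCircle := AddMonoidHom.mk' (fun y => lg (χ (Multiplicative.ofAdd y)))
    (fun a b => by
      show lg (χ (Multiplicative.ofAdd (a + b))) = _
      rw [ofAdd_add, map_mul, lg_mul]) with hχ'
  obtain ⟨x, hx⟩ := gperfect D χ' (lg_continuous.comp hχc)
  refine ⟨Multiplicative.ofAdd (half D x), ?_⟩
  apply PontryaginDual.ext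
  intro y
  rw [dmapHom_apply, cc_sq]
  show cc D (half D x + half D x) (Multiplicative.toAdd y) = χ y
  rw [half_add]
  unfold cc
  rw [hx]
  show AddCircle.toCircle (lg (χ (Multiplicative.ofAdd (Multiplicative.toAdd y)))) = χ y
  rw [toCircle_lg, ofAdd_toAdd]

/-- the isomorphism of abstract groups -/
noncomputable def dEquiv [DecidableEq ι] (D : Dat ι K) :
    Multiplicative D.X ≃* PontryaginDual (Multiplicative D.X) :=
  MulEquiv.ofBijective (dmapHom D) ⟨dmapHom_injective D, dmapHom_surjective D⟩

lemma dEquiv_symm_continuous [DecidableEq ι] (D : Dat ι K) : Continuous (dEquiv D).symm := by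
  apply continuous_of_continuousAt_one (dEquiv D).symm
  unfold ContinuousAt
  rw [map_one]
  intro U hU
  have hU' : U ∈ 𝓝 (0 : D.X) := hU
  obtain ⟨F, hF⟩ := nhds_basic D hU'
  rw [Filter.mem_map]
  let C : Set (Multiplicative D.X) := {x : D.X | ∀ i ∉ F, x i ∈ D.L i}
  have hC : IsCompact C := compact_CF D F
  let V : Set (PontryaginDual (Multiplicative D.X)) :=
    {ψ | Set.MapsTo ψ C (Circle.centeredArc (Real.pi / 2))}
  have hVopen : IsOpen V := by
    dsimp only [V]
    exact isOpen_induced (ContinuousMap.isOpen_setOfPred_mapsTo hC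
      (Circle.isOpen_centeredArc (Real.pi / 2)))
  have h1V : (1 : PontryaginDual (Multiplicative D.X)) ∈ V := by
    intro y _
    show (1 : Circle) ∈ Circle.centeredArc (Real.pi / 2)
    rw [Circle.mem_centeredArc (by linarith [Real.pi_pos])]
    simp [Real.pi_pos]
  refine Filter.mem_of_superset (hVopen.mem_nhds h1V) ?_
  intro χ hχ
  obtain ⟨x, rfl⟩ := (dEquiv D).surjective χ
  rw [Set.mem_preimage, MulEquiv.symm_apply_apply]
  have key : ∀ y : D.X, (∀ i ∉ F, y i ∈ D.L i) → cc D (Multiplicative.toAdd x) y ^ 2 = 1 := by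
    intro y hy
    refine Circle.eq_one_of_forall_pow_mem_centeredArc_pi_div_two fun n hn => ?_
    have h2 : (Multiplicative.ofAdd (n • y) : Multiplicative D.X) ∈ C := by
      intro i hi
      show n • (y i) ∈ D.L i
      exact (D.L i).nsmul_mem (hy i hi) n
    have h3 := hχ h2
    have h4 : (dEquiv D) x (Multiplicative.ofAdd (n • y)) = (cc D (Multiplicative.toAdd x) y ^ 2) ^ n := by
      rw [ofAdd_nsmul, map_pow]
      rfl
    rw [h4] at h3
    exact h3
  apply hF
  · intro i hi
    apply D.nondeg
    intro y
    apply cc_sq_eq_one_comp D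
    apply key
    intro j hj
    rw [sg_ne D (fun h => hj (by rw [h]; exact hi))]
    exact (D.L j).zero_mem
  · intro i
    rw [D.perp]
    intro y hy
    apply cc_sq_eq_one_comp D
    apply key
    intro j hj
    by_cases hji : j = i
    · subst hji; rw [sg_same]; exact hy
    · rw [sg_ne D hji]; exact (D.L j).zero_mem

/-- the topological isomorphism -/
noncomputable def dEquivC [DecidableEq ι] (D : Dat ι K) :
    Multiplicative D.X ≃ₜ* PontryaginDual (Multiplicative D.X) :=
  { dEquiv D with
    continuous_toFun := dmapHom_continuous D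
    continuous_invFun := dEquiv_symm_continuous D }

end Pool.Agent.L0h61.MUM
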