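import Mathlib

namespace Pool.Agent.L0h61.MUM

/-- the local group `(ℤ/p⁸)² × (ℤ/p⁴)²` -/
def Kp (p : ℕ) : Type := (ZMod (p ^ 8) × ZMod (p ^ 8)) × (ZMod (p ^ 4) × ZMod (p ^ 4))

instance (p : ℕ) : AddCommGroup (Kp p) :=
  inferInstanceAs (AddCommGroup ((ZMod (p ^ 8) × ZMod (p ^ 8)) × (ZMod (p ^ 4) × ZMod (p ^ 4))))

instance (p : ℕ) : TopologicalSpace (Kp p) := ⊥
instance (p : ℕ) : DiscreteTopology (Kp p) := ⟨rfl⟩

/-- integer representatives -/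
def oi (p : ℕ) (a b c d : ℤ) : Kp p := (((a : ZMod (p ^ 8)), (b : ZMod (p ^ 8))),
  ((c : ZMod (p ^ 4)), (d : ZMod (p ^ 4))))

lemma oi_surj (p : ℕ) (x : Kp p) : ∃ a b c d : ℤ, x = oi p a b c d := by
  obtain ⟨⟨a, b⟩, ⟨c, d⟩⟩ := x
  obtain ⟨a, rfl⟩ := ZMod.intCast_surjective a
  obtain ⟨b, rfl⟩ := ZMod.intCast_surjective b
  obtain ⟨c, rfl⟩ := ZMod.intCast_surjective c
  obtain ⟨d, rfl⟩ := ZMod.intCast_surjective d
  exact ⟨a, b, c, d, rfl⟩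

lemma oi_eq_iff (p : ℕ) (a b c d a' b' c' d' : ℤ) : oi p a b c d = oi p a' b' c' d' ↔
    ((p : ℤ) ^ 8 ∣ a - a') ∧ ((p : ℤ) ^ 8 ∣ b - b') ∧ ((p : ℤ) ^ 4 ∣ c - c') ∧
      ((p : ℤ) ^ 4 ∣ d - d') := by
  have h0 : oi p a b c d = oi p a' b' c' d' ↔ (((a : ZMod (p ^ 8)) = a') ∧ ((b : ZMod (p ^ 8)) = b') ∧
      ((c : ZMod (p ^ 4)) = c') ∧ ((d : ZMod (p ^ 4)) = d')) := by
    constructor
    · intro h
      exact ⟨congrArg (fun x : Kp p => x.1.1) h, congrArg (fun x : Kp p => x.1.2) h,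
        congrArg (fun x : Kp p => x.2.1) h, congrArg (fun x : Kp p => x.2.2) h⟩
    · rintro ⟨h1, h2, h3, h4⟩
      unfold oi
      rw [h1, h2, h3, h4]
  rw [h0]
  rw [ZMod.intCast_eq_intCast_iff_dvd_sub, ZMod.intCast_eq_intCast_iff_dvd_sub,
    ZMod.intCast_eq_intCast_iff_dvd_sub, ZMod.intCast_eq_intCast_iff_dvd_sub]
  push_cast
  rw [dvd_sub_comm (b := a'), dvd_sub_comm (b := b'), dvd_sub_comm (b := c'), dvd_sub_comm (b := d')]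

lemma oi_add (p : ℕ) (a b c d a' b' c' d' : ℤ) : oi p a b c d + oi p a' b' c' d' =
    oi p (a + a') (b + b') (c + c') (d + d') := by
  unfold oi
  push_cast
  rfl

lemma oi_zero (p : ℕ) : (0 : Kp p) = oi p 0 0 0 0 := by
  unfold oi
  push_cast
  rfl

lemma oi_neg (p : ℕ) (a b c d : ℤ) : - oi p a b c d = oi p (-a) (-b) (-c) (-d) := by
  unfold oi
  push_cast
  rfl

lemma oi_sub (p : ℕ) (a b c d a' b' c' d' : ℤ) : oi p a b c d - oi p a' b' c' d' =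
    oi p (a - a') (b - b') (c - c') (d - d') := by
  rw [sub_eq_add_neg, oi_neg, oi_add]
  rfl

lemma oi_smul (p : ℕ) (n a b c d : ℤ) : n • oi p a b c d = oi p (n * a) (n * b) (n * c) (n * d) := by
  unfold oi
  push_cast
  have h : ∀ (m : ℕ) (z : ZMod m), n • z = (n : ZMod m) * z := fun m z => zsmul_eq_mul z n
  rw [← h, ← h, ← h, ← h]
  rfl

section form

variable (p : ℕ) [NeZero p]

/-- the form -/
noncomputable def fm (x y : Kp p) : UnitAddCircle :=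
  ZMod.toAddCircle (x.1.1 * y.1.2 - x.1.2 * y.1.1) - ZMod.toAddCircle (x.2.1 * y.2.2 - x.2.2 * y.2.1)

/-- the form as a homomorphism -/
noncomputable def fmH : Kp p →+ Kp p →+ UnitAddCircle :=
  AddMonoidHom.mk' (fun x => AddMonoidHom.mk' (fun y => fm p x y) (by
      intro y y'
      show ZMod.toAddCircle (x.1.1 * (y.1.2 + y'.1.2) - x.1.2 * (y.1.1 + y'.1.1))
        - ZMod.toAddCircle (x.2.1 * (y.2.2 + y'.2.2) - x.2.2 * (y.2.1 + y'.2.1)) = _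
      unfold fm
      rw [show x.1.1 * (y.1.2 + y'.1.2) - x.1.2 * (y.1.1 + y'.1.1)
        = (x.1.1 * y.1.2 - x.1.2 * y.1.1) + (x.1.1 * y'.1.2 - x.1.2 * y'.1.1) by ring,
        show x.2.1 * (y.2.2 + y'.2.2) - x.2.2 * (y.2.1 + y'.2.1)
        = (x.2.1 * y.2.2 - x.2.2 * y.2.1) + (x.2.1 * y'.2.2 - x.2.2 * y'.2.1) by ring,
        map_add, map_add]
      abel)) (by
    intro x x'
    ext y
    show ZMod.toAddCircle ((x.1.1 + x'.1.1) * y.1.2 - (x.1.2 + x'.1.2) * y.1.1)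
        - ZMod.toAddCircle ((x.2.1 + x'.2.1) * y.2.2 - (x.2.2 + x'.2.2) * y.2.1)
        = fm p x y + fm p x' y
    unfold fm
    rw [show (x.1.1 + x'.1.1) * y.1.2 - (x.1.2 + x'.1.2) * y.1.1
        = (x.1.1 * y.1.2 - x.1.2 * y.1.1) + (x'.1.1 * y.1.2 - x'.1.2 * y.1.1) by ring,
        show (x.2.1 + x'.2.1) * y.2.2 - (x.2.2 + x'.2.2) * y.2.1
        = (x.2.1 * y.2.2 - x.2.2 * y.2.1) + (x'.2.1 * y.2.2 - x'.2.2 * y.2.1) by ring,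
        map_add, map_add]
    abel)

lemma fmH_apply (x y : Kp p) : fmH p x y = fm p x y := rfl

lemma fmH_self (x : Kp p) : fmH p x x = 0 := by
  rw [fmH_apply]
  unfold fm
  rw [mul_comm x.1.2 x.1.1, mul_comm x.2.2 x.2.1, sub_self, sub_self, map_zero, map_zero, sub_zero]

lemma fmH_oi (a b c d a' b' c' d' : ℤ) : fmH p (oi p a b c d) (oi p a' b' c' d') =
    ZMod.toAddCircle (((a * b' - b * a') - (p : ℤ) ^ 4 * (c * d' - d * c') : ℤ) : ZMod (p ^ 8)) := by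
  have hp : (p : ℝ) ≠ 0 := Nat.cast_ne_zero.2 (NeZero.ne p)
  have h1 : fmH p (oi p a b c d) (oi p a' b' c' d') =
    ZMod.toAddCircle (((a * b' - b * a' : ℤ)) : ZMod (p ^ 8))
      - ZMod.toAddCircle (((c * d' - d * c' : ℤ)) : ZMod (p ^ 4)) := by
    push_cast
    rfl
  rw [h1, ZMod.toAddCircle_intCast, ZMod.toAddCircle_intCast, ZMod.toAddCircle_intCast,
    ← AddCircle.coe_sub]
  congr 1
  push_cast
  field_simp

lemma fmH_zero_iff (a b c d a' b' c' d' : ℤ) : fmH p (oi p a b c d) (oi p a' b' c' d') = 0 ↔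
    (p : ℤ) ^ 8 ∣ (a * b' - b * a') - (p : ℤ) ^ 4 * (c * d' - d * c') := by
  rw [fmH_oi, ZMod.toAddCircle_eq_zero, ZMod.intCast_zmod_eq_zero_iff_dvd]
  push_cast
  rfl

/-- the Lagrangian -/
noncomputable def Lp : AddSubgroup (Kp p) :=
  (((AddMonoidHom.flip (fmH p)) (oi p (p ^ 2) 0 1 0)).ker ⊓
    ((AddMonoidHom.flip (fmH p)) (oi p 0 (p ^ 4) p (p ^ 2))).ker) ⊓
  (((AddMonoidHom.flip (fmH p)) (oi p (p ^ 4) 0 0 0)).ker ⊓
    ((AddMonoidHom.flip (fmH p)) (oi p 0 (p ^ 6) 0 0)).ker)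

lemma mem_Lp (x : Kp p) : x ∈ Lp p ↔ (fmH p x (oi p (p ^ 2) 0 1 0) = 0 ∧
    fmH p x (oi p 0 (p ^ 4) p (p ^ 2)) = 0) ∧
    (fmH p x (oi p (p ^ 4) 0 0 0) = 0 ∧ fmH p x (oi p 0 (p ^ 6) 0 0) = 0) := Iff.rfl

lemma mem_Lp_iff (a b c d : ℤ) : oi p a b c d ∈ Lp p ↔ ∃ a' b' k m : ℤ,
    a = p ^ 2 * a' ∧ b = p ^ 4 * b' ∧ d = p ^ 2 * b' + p ^ 4 * k ∧
      c = a' + p * b' + p ^ 2 * m := by
  have hp : (p : ℤ) ≠ 0 := Nat.cast_ne_zero.2 (NeZero.ne p)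
  rw [mem_Lp, fmH_zero_iff, fmH_zero_iff, fmH_zero_iff, fmH_zero_iff]
  constructor
  · rintro ⟨⟨h1, h2⟩, h3, h4⟩
    -- a
    have ha : (p : ℤ) ^ 2 ∣ a := by
      have : (p : ℤ) ^ 6 * p ^ 2 ∣ p ^ 6 * a := by
        have e : (p : ℤ) ^ 6 * p ^ 2 = p ^ 8 := by ring
        rw [e]
        obtain ⟨t, ht⟩ := h4
        exact ⟨t, by linarith⟩
      exact (mul_dvd_mul_iff_left (pow_ne_zero 6 hp)).1 this
    have hb : (p : ℤ) ^ 4 ∣ b := by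
      have : (p : ℤ) ^ 4 * p ^ 4 ∣ p ^ 4 * b := by
        have e : (p : ℤ) ^ 4 * p ^ 4 = p ^ 8 := by ring
        rw [e]
        obtain ⟨t, ht⟩ := h3
        exact ⟨-t, by linarith⟩
      exact (mul_dvd_mul_iff_left (pow_ne_zero 4 hp)).1 this
    obtain ⟨a', rfl⟩ := ha
    obtain ⟨b', rfl⟩ := hb
    have hd : (p : ℤ) ^ 4 ∣ d - p ^ 2 * b' := by
      have : (p : ℤ) ^ 4 * p ^ 4 ∣ p ^ 4 * (d - p ^ 2 * b') := by
        have e : (p : ℤ) ^ 4 * p ^ 4 = p ^ 8 := by ring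
        rw [e]
        obtain ⟨t, ht⟩ := h1
        exact ⟨t, by linarith⟩
      exact (mul_dvd_mul_iff_left (pow_ne_zero 4 hp)).1 this
    obtain ⟨k, hk⟩ := hd
    have hd' : d = p ^ 2 * b' + p ^ 4 * k := by linarith
    subst hd'
    have hc : (p : ℤ) ^ 2 ∣ c - a' - p * b' := by
      have : (p : ℤ) ^ 6 * p ^ 2 ∣ p ^ 6 * (c - a' - p * b') := by
        have e : (p : ℤ) ^ 6 * p ^ 2 = p ^ 8 := by ring
        rw [e]
        obtain ⟨t, ht⟩ := h2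
        exact ⟨-(t - p * k), by linarith⟩
      exact (mul_dvd_mul_iff_left (pow_ne_zero 6 hp)).1 this
    obtain ⟨m, hm⟩ := hc
    exact ⟨a', b', k, m, rfl, rfl, rfl, by linarith⟩
  · rintro ⟨a', b', k, m, rfl, rfl, rfl, rfl⟩
    refine ⟨⟨⟨k, by ring⟩, ⟨p * k - m, by ring⟩⟩, ⟨-b', by ring⟩, ⟨a', by ring⟩⟩

lemma Lp_isotropic (x y : Kp p) (hx : x ∈ Lp p) (hy : y ∈ Lp p) : fmH p x y = 0 := by
  obtain ⟨a, b, c, d, rfl⟩ := oi_surj p x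
  obtain ⟨a', b', c', d', rfl⟩ := oi_surj p y
  rw [mem_Lp_iff] at hx hy
  obtain ⟨x1, x2, k, m, rfl, rfl, rfl, rfl⟩ := hx
  obtain ⟨y1, y2, k', m', rfl, rfl, rfl, rfl⟩ := hy
  rw [fmH_zero_iff]
  refine ⟨-(m * y2 + (x1 + p * x2 + p ^ 2 * m) * k') + (x2 * m' + k * (y1 + p * y2 + p ^ 2 * m')), by ring⟩

lemma Lp_perp (x : Kp p) : x ∈ Lp p ↔ ∀ y ∈ Lp p, fmH p x y = 0 := by
  constructor
  · intro hx y hy
    exact Lp_isotropic p x y hx hy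
  · intro h
    rw [mem_Lp]
    refine ⟨⟨h _ ?_, h _ ?_⟩, h _ ?_, h _ ?_⟩
    · rw [mem_Lp_iff]
      exact ⟨1, 0, 0, 0, by ring, by ring, by ring, by ring⟩
    · rw [mem_Lp_iff]
      exact ⟨0, 1, 0, 0, by ring, by ring, by ring, by ring⟩
    · rw [mem_Lp_iff]
      exact ⟨p ^ 2, 0, 0, -1, by ring, by ring, by ring, by ring⟩
    · rw [mem_Lp_iff]
      exact ⟨0, p ^ 2, -1, -p, by ring, by ring, by ring, by ring⟩

lemma tors_p (x : Kp p) : (p ^ 8) • x = 0 := by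
  obtain ⟨a, b, c, d, rfl⟩ := oi_surj p x
  rw [← natCast_zsmul, oi_smul, oi_zero, oi_eq_iff]
  push_cast
  refine ⟨⟨a, by ring⟩, ⟨b, by ring⟩, ⟨p ^ 4 * c, by ring⟩, ⟨p ^ 4 * d, by ring⟩⟩

lemma basis_p (a b c d : ℤ) : oi p a b c d = a • oi p 1 0 0 0 + b • oi p 0 1 0 0
    + c • oi p 0 0 1 0 + d • oi p 0 0 0 1 := by
  rw [oi_smul, oi_smul, oi_smul, oi_smul, oi_add, oi_add, oi_add]
  congr 1 <;> ring

lemma tors_circle (n : ℕ) [NeZero n] (t : UnitAddCircle) (h : n • t = 0) :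
    ∃ z : ℤ, ZMod.toAddCircle (z : ZMod n) = t := by
  have hn : 0 < n := Nat.pos_of_ne_zero (NeZero.ne n)
  rw [AddCircle.nsmul_eq_zero_iff hn] at h
  obtain ⟨m, hm, hm'⟩ := h
  refine ⟨m, ?_⟩
  rw [ZMod.toAddCircle_intCast, ← hm']
  push_cast
  rw [mul_one]

lemma fm_perfect (χ : Kp p →+ UnitAddCircle) : ∃ x, ∀ y, fmH p x y = χ y := by
  have h8 : ∀ x : Kp p, (p ^ 8) • χ x = 0 := by
    intro x; rw [← map_nsmul, tors_p, map_zero]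
  have h4 : ∀ c d : ℤ, (p ^ 4) • χ (oi p 0 0 c d) = 0 := by
    intro c d
    rw [← map_nsmul, ← natCast_zsmul, oi_smul]
    have : oi p (((p ^ 4 : ℕ) : ℤ) * 0) (((p ^ 4 : ℕ) : ℤ) * 0) (((p ^ 4 : ℕ) : ℤ) * c)
        (((p ^ 4 : ℕ) : ℤ) * d) = 0 := by
      rw [oi_zero, oi_eq_iff]
      push_cast
      refine ⟨⟨0, by ring⟩, ⟨0, by ring⟩, ⟨c, by ring⟩, ⟨d, by ring⟩⟩
    rw [this, map_zero]
  obtain ⟨z1, hz1⟩ := tors_circle (p ^ 8) _ (h8 (oi p 1 0 0 0))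
  obtain ⟨z2, hz2⟩ := tors_circle (p ^ 8) _ (h8 (oi p 0 1 0 0))
  obtain ⟨z3, hz3⟩ := tors_circle (p ^ 4) _ (h4 1 0)
  obtain ⟨z4, hz4⟩ := tors_circle (p ^ 4) _ (h4 0 1)
  refine ⟨oi p z2 (-z1) (-z4) z3, fun y => ?_⟩
  obtain ⟨a, b, c, d, rfl⟩ := oi_surj p y
  rw [basis_p p a b c d]
  simp only [map_add, map_zsmul]
  rw [← hz1, ← hz2, ← hz3, ← hz4]
  congr 1
  · congr 1
    · congr 1
      · congr 1
        rw [fmH_apply]
        show ZMod.toAddCircle ((z2 : ZMod (p ^ 8)) * ((0 : ℤ) : ZMod (p ^ 8)) - ((-z1 : ℤ) : ZMod (p ^ 8)) * ((1 : ℤ) : ZMod (p ^ 8)))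
          - ZMod.toAddCircle (((-z4 : ℤ) : ZMod (p ^ 4)) * ((0 : ℤ) : ZMod (p ^ 4)) - (z3 : ZMod (p ^ 4)) * ((0 : ℤ) : ZMod (p ^ 4))) = _
        simp
      · congr 1
        rw [fmH_apply]
        show ZMod.toAddCircle ((z2 : ZMod (p ^ 8)) * ((1 : ℤ) : ZMod (p ^ 8)) - ((-z1 : ℤ) : ZMod (p ^ 8)) * ((0 : ℤ) : ZMod (p ^ 8)))
          - ZMod.toAddCircle (((-z4 : ℤ) : ZMod (p ^ 4)) * ((0 : ℤ) : ZMod (p ^ 4)) - (z3 : ZMod (p ^ 4)) * ((0 : ℤ) : ZMod (p ^ 4))) = _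
        simp
    · congr 1
      rw [fmH_apply]
      show ZMod.toAddCircle ((z2 : ZMod (p ^ 8)) * ((0 : ℤ) : ZMod (p ^ 8)) - ((-z1 : ℤ) : ZMod (p ^ 8)) * ((0 : ℤ) : ZMod (p ^ 8)))
          - ZMod.toAddCircle (((-z4 : ℤ) : ZMod (p ^ 4)) * ((0 : ℤ) : ZMod (p ^ 4)) - (z3 : ZMod (p ^ 4)) * ((1 : ℤ) : ZMod (p ^ 4))) = _
      simp
  · congr 1
    rw [fmH_apply]
    show ZMod.toAddCircle ((z2 : ZMod (p ^ 8)) * ((0 : ℤ) : ZMod (p ^ 8)) - ((-z1 : ℤ) : ZMod (p ^ 8)) * ((0 : ℤ) : ZMod (p ^ 8)))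
          - ZMod.toAddCircle (((-z4 : ℤ) : ZMod (p ^ 4)) * ((1 : ℤ) : ZMod (p ^ 4)) - (z3 : ZMod (p ^ 4)) * ((0 : ℤ) : ZMod (p ^ 4))) = _
    simp

lemma fm_nondeg (x : Kp p) (h : ∀ y, fmH p x y = 0) : x = 0 := by
  obtain ⟨a, b, c, d, rfl⟩ := oi_surj p x
  have hp : (p : ℤ) ≠ 0 := Nat.cast_ne_zero.2 (NeZero.ne p)
  have h1 := h (oi p 1 0 0 0)
  have h2 := h (oi p 0 1 0 0)
  have h3 := h (oi p 0 0 1 0)
  have h4 := h (oi p 0 0 0 1)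
  rw [fmH_zero_iff] at h1 h2 h3 h4
  rw [oi_zero, oi_eq_iff]
  refine ⟨?_, ?_, ?_, ?_⟩
  · obtain ⟨t, ht⟩ := h2
    exact ⟨t, by linarith⟩
  · obtain ⟨t, ht⟩ := h1
    exact ⟨-t, by linarith⟩
  · have : (p : ℤ) ^ 4 * p ^ 4 ∣ p ^ 4 * (c - 0) := by
      have e : (p : ℤ) ^ 4 * p ^ 4 = p ^ 8 := by ring
      rw [e]
      obtain ⟨t, ht⟩ := h4
      exact ⟨-t, by linarith⟩
    exact (mul_dvd_mul_iff_left (pow_ne_zero 4 hp)).1 this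
  · have : (p : ℤ) ^ 4 * p ^ 4 ∣ p ^ 4 * (d - 0) := by
      have e : (p : ℤ) ^ 4 * p ^ 4 = p ^ 8 := by ring
      rw [e]
      obtain ⟨t, ht⟩ := h3
      exact ⟨t, by linarith⟩
    exact (mul_dvd_mul_iff_left (pow_ne_zero 4 hp)).1 this

/-- no isotropic splitting of the local space is compatible with the Lagrangian -/
theorem nonsplit (hp1 : 1 < p) (E : Kp p →+ Kp p) (hid : ∀ x, E (E x) = E x)
    (hL : ∀ x ∈ Lp p, E x ∈ Lp p) (h1 : ∀ x y, fmH p (E x) (E y) = 0)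
    (h2 : ∀ x y, fmH p (x - E x) (y - E y) = 0) : False := by
  have hp : (p : ℤ) ≠ 0 := Nat.cast_ne_zero.2 (NeZero.ne p)
  obtain ⟨x11, x21, y11, y21, hE1⟩ := oi_surj p (E (oi p 1 0 0 0))
  obtain ⟨x12, x22, y12, y22, hE2⟩ := oi_surj p (E (oi p 0 1 0 0))
  obtain ⟨z11, z21, w11, w21, hE3⟩ := oi_surj p (E (oi p 0 0 1 0))
  obtain ⟨z12, z22, w12, w22, hE4⟩ := oi_surj p (E (oi p 0 0 0 1))
  -- the off diagonal entries are divisible by p ^ 4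
  have hz : ∀ (x : Kp p) (z z' w w' : ℤ), ((p ^ 4 : ℕ) : ℤ) • x = 0 → E x = oi p z z' w w' →
      (p : ℤ) ^ 4 ∣ z ∧ (p : ℤ) ^ 4 ∣ z' := by
    intro x z z' w w' hx hE
    have h3 : ((p ^ 4 : ℕ) : ℤ) • E x = 0 := by rw [← map_zsmul, hx, map_zero]
    rw [hE, oi_smul, oi_zero, oi_eq_iff] at h3
    push_cast at h3
    constructor
    · have : (p : ℤ) ^ 4 * p ^ 4 ∣ p ^ 4 * z := by
        have e : (p : ℤ) ^ 4 * p ^ 4 = p ^ 8 := by ring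
        rw [e]
        have := h3.1
        rw [sub_zero] at this
        exact this
      exact (mul_dvd_mul_iff_left (pow_ne_zero 4 hp)).1 this
    · have : (p : ℤ) ^ 4 * p ^ 4 ∣ p ^ 4 * z' := by
        have e : (p : ℤ) ^ 4 * p ^ 4 = p ^ 8 := by ring
        rw [e]
        have := h3.2.1
        rw [sub_zero] at this
        exact this
      exact (mul_dvd_mul_iff_left (pow_ne_zero 4 hp)).1 this
  have ht3 : ((p ^ 4 : ℕ) : ℤ) • oi p 0 0 1 0 = 0 := by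
    rw [oi_smul, oi_zero, oi_eq_iff]
    push_cast
    refine ⟨⟨0, by ring⟩, ⟨0, by ring⟩, ⟨1, by ring⟩, ⟨0, by ring⟩⟩
  have ht4 : ((p ^ 4 : ℕ) : ℤ) • oi p 0 0 0 1 = 0 := by
    rw [oi_smul, oi_zero, oi_eq_iff]
    push_cast
    refine ⟨⟨0, by ring⟩, ⟨0, by ring⟩, ⟨0, by ring⟩, ⟨1, by ring⟩⟩
  obtain ⟨⟨z11, rfl⟩, ⟨z21, rfl⟩⟩ := hz _ _ _ _ _ ht3 hE3
  obtain ⟨⟨z12, rfl⟩, ⟨z22, rfl⟩⟩ := hz _ _ _ _ _ ht4 hE4
  have hE : ∀ a b c d : ℤ, E (oi p a b c d) = oi p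
      (a * x11 + b * x12 + c * (p ^ 4 * z11) + d * (p ^ 4 * z12))
      (a * x21 + b * x22 + c * (p ^ 4 * z21) + d * (p ^ 4 * z22))
      (a * y11 + b * y12 + c * w11 + d * w12) (a * y21 + b * y22 + c * w21 + d * w22) := by
    intro a b c d
    rw [basis_p p a b c d]
    simp only [map_add, map_zsmul]
    rw [hE1, hE2, hE3, hE4, oi_smul, oi_smul, oi_smul, oi_smul, oi_add, oi_add, oi_add]
  -- the two generators of the Lagrangian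
  have hu : oi p (p ^ 2) 0 1 0 ∈ Lp p := by
    rw [mem_Lp_iff]
    exact ⟨1, 0, 0, 0, by ring, by ring, by ring, by ring⟩
  have hv : oi p 0 (p ^ 4) p (p ^ 2) ∈ Lp p := by
    rw [mem_Lp_iff]
    exact ⟨0, 1, 0, 0, by ring, by ring, by ring, by ring⟩
  have hEu := hL _ hu
  have hEv := hL _ hv
  rw [hE, mem_Lp_iff] at hEu hEv
  obtain ⟨a1, b1, k1, m1, e11, e12, e13, e14⟩ := hEu
  obtain ⟨a2, b2, k2, m2, e21, e22, e23, e24⟩ := hEv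
  -- consequences of the first
  have f1 : a1 = x11 + p ^ 2 * z11 := by
    have : (p : ℤ) ^ 2 * a1 = p ^ 2 * (x11 + p ^ 2 * z11) := by linarith
    exact mul_left_cancel₀ (pow_ne_zero 2 hp) this
  have f2 : x21 = p ^ 2 * (b1 - z21) := by
    have : (p : ℤ) ^ 2 * x21 = p ^ 2 * (p ^ 2 * (b1 - z21)) := by linarith
    exact mul_left_cancel₀ (pow_ne_zero 2 hp) this
  have f3 : w11 = x11 + p * (p * z11 + b1 + p * m1 - p * y11) := by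
    rw [f1] at e14
    linarith
  have f4 : a2 = p ^ 2 * x12 + p ^ 3 * z11 + p ^ 4 * z12 := by
    have : (p : ℤ) ^ 2 * a2 = p ^ 2 * (p ^ 2 * x12 + p ^ 3 * z11 + p ^ 4 * z12) := by linarith
    exact mul_left_cancel₀ (pow_ne_zero 2 hp) this
  have f5 : b2 = x22 + p * z21 + p ^ 2 * z22 := by
    have : (p : ℤ) ^ 4 * b2 = p ^ 4 * (x22 + p * z21 + p ^ 2 * z22) := by linarith
    exact mul_left_cancel₀ (pow_ne_zero 4 hp) this
  have f6 : w11 = x22 + p * (x12 + p * z11 + p ^ 2 * z12 + z21 + p * z22 + m2 - p ^ 2 * y12 - w12) := by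
    have : (p : ℤ) * w11 = p * (x22 + p * (x12 + p * z11 + p ^ 2 * z12 + z21 + p * z22 + m2
        - p ^ 2 * y12 - w12)) := by
      rw [f4, f5] at e24
      linarith
    exact mul_left_cancel₀ hp this
  -- the form relation
  have g1 := h1 (oi p 1 0 0 0) (oi p 0 1 0 0)
  have g2 := h2 (oi p 1 0 0 0) (oi p 0 1 0 0)
  rw [hE, hE] at g1 g2
  rw [oi_sub, oi_sub, fmH_zero_iff] at g2
  rw [fmH_zero_iff] at g1
  have g3 : (p : ℤ) ^ 8 ∣ x11 + x22 - 1 := by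
    obtain ⟨t1, ht1⟩ := g1
    obtain ⟨t2, ht2⟩ := g2
    exact ⟨t1 - t2, by linarith⟩
  -- idempotency
  have i1 := hid (oi p 1 0 0 0)
  rw [hE, hE, oi_eq_iff] at i1
  obtain ⟨i1, -⟩ := i1
  obtain ⟨r, hr⟩ := g3
  obtain ⟨s, hs⟩ := i1
  -- everything mod p
  have hx22 : x22 = 1 - x11 + p * (p ^ 7 * r) := by linarith
  have hx : 2 * x11 = 1 + p * ((p ^ 7 * r) + (x12 + p * z11 + p ^ 2 * z12 + z21 + p * z22 + m2
      - p ^ 2 * y12 - w12) - (p * z11 + b1 + p * m1 - p * y11)) := by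
    rw [f3, hx22] at f6
    linarith
  set q : ℤ := ((p ^ 7 * r) + (x12 + p * z11 + p ^ 2 * z12 + z21 + p * z22 + m2
      - p ^ 2 * y12 - w12) - (p * z11 + b1 + p * m1 - p * y11)) with hq
  have hsq : ∃ t : ℤ, x11 * x11 - x11 = p * t := by
    refine ⟨p ^ 7 * s - (p * (b1 - z21)) * x12 - y11 * (p ^ 3 * z11) - y21 * (p ^ 3 * z12), ?_⟩
    rw [f2] at hs
    linarith
  obtain ⟨t, ht⟩ := hsq
  have hfin : (p : ℤ) ∣ 1 := by
    refine ⟨-(4 * t) + p * q ^ 2, ?_⟩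
    have h5 : (2 * x11) * (2 * x11) - 2 * (2 * x11) = 4 * (p * t) := by rw [← ht]; ring
    rw [hx] at h5
    linarith
  have h6 := Int.eq_one_of_dvd_one (by positivity) hfin
  have h7 : p = 1 := by exact_mod_cast h6
  omega

end form

end Pool.Agent.L0h61.MUM
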