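import Mathlib
import Pool.Agent.L0h61.MUM.Dual

open Filter Topology RestrictedProduct
open scoped commutatorElement

namespace Pool.Agent.L0h61.MUM

variable {ι : Type} {K : ι → Type} [∀ i, AddCommGroup (K i)] [∀ i, TopologicalSpace (K i)]
  [∀ i, DiscreteTopology (K i)] [DecidableEq ι]

omit [DecidableEq ι] in
lemma prj_continuous (D : Dat ι K) : Continuous (prj D) := by
  have h : Continuous (fun q : Circle × D.X => q.2) := continuous_snd
  exact h

/-- the section -/
noncomputable def sct (D : Dat ι K) (x : Multiplicative D.X) : Mum D :=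
  ((1, Multiplicative.toAdd x) : Circle × D.X)

omit [DecidableEq ι] in
lemma sct_continuous (D : Dat ι K) : Continuous (sct D) := by
  have h : Continuous (fun x : D.X => ((1, x) : Circle × D.X)) :=
    continuous_const.prodMk continuous_id
  exact h

omit [∀ i, TopologicalSpace (K i)] [∀ i, DiscreteTopology (K i)] [DecidableEq ι] in
lemma prj_sct (D : Dat ι K) (x : Multiplicative D.X) : prj D (sct D x) = x := rfl

/-- the quotient by the centre -/
noncomputable def quo (D : Dat ι K) :
    (Mum D ⧸ Subgroup.center (Mum D)) ≃ₜ* Multiplicative D.X where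
  toFun := QuotientGroup.lift (Subgroup.center (Mum D)) (prj D) (fun a ha => (center_prj D a).1 ha)
  invFun x := QuotientGroup.mk (sct D x)
  left_inv := by
    intro q
    obtain ⟨a, rfl⟩ := QuotientGroup.mk_surjective q
    show (QuotientGroup.mk (sct D (prj D a)) : Mum D ⧸ Subgroup.center (Mum D)) = QuotientGroup.mk a
    rw [QuotientGroup.eq]
    rw [center_prj, map_mul, map_inv, prj_sct]
    exact inv_mul_cancel _
  right_inv := by
    intro x
    exact prj_sct D x
  map_mul' := map_mul _
  continuous_toFun := by
    exact Continuous.quotient_lift (prj_continuous D) _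
  continuous_invFun := by
    exact QuotientGroup.continuous_mk.comp (sct_continuous D)

lemma quo_mk (D : Dat ι K) (a : Mum D) : quo D (QuotientGroup.mk a) = prj D a := rfl

/-- a topological isomorphism induces one of the duals -/
noncomputable def dualCongr {A B : Type} [Group A] [Group B] [TopologicalSpace A]
    [TopologicalSpace B] (e : A ≃ₜ* B) : PontryaginDual B ≃ₜ* PontryaginDual A where
  toFun := PontryaginDual.map (e : A →ₜ* B)
  invFun := PontryaginDual.map (e.symm : B →ₜ* A)
  left_inv := by
    intro f
    apply PontryaginDual.ext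
    intro b
    show f (e (e.symm b)) = f b
    rw [ContinuousMulEquiv.apply_symm_apply]
  right_inv := by
    intro f
    apply PontryaginDual.ext
    intro b
    show f (e.symm (e b)) = f b
    rw [ContinuousMulEquiv.symm_apply_apply]
  map_mul' := map_mul _
  continuous_toFun := map_continuous _
  continuous_invFun := map_continuous _

lemma dualCongr_apply {A B : Type} [Group A] [Group B] [TopologicalSpace A]
    [TopologicalSpace B] (e : A ≃ₜ* B) (f : PontryaginDual B) (a : A) :
    dualCongr e f a = f (e a) := rfl

/-- the Mumford map -/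
noncomputable def mumf [∀ i, Finite (K i)] (D : Dat ι K) :
    (Mum D ⧸ Subgroup.center (Mum D)) ≃ₜ* PontryaginDual (Mum D ⧸ Subgroup.center (Mum D)) :=
  ((quo D).trans (dEquivC D)).trans (dualCongr (quo D))

lemma mumf_apply [∀ i, Finite (K i)] (D : Dat ι K) (a b : Mum D) :
    mumf D (QuotientGroup.mk a) (QuotientGroup.mk b) = cc D a.2 b.2 ^ 2 := rfl

/-- the centre -/
noncomputable def cen (D : Dat ι K) : Subgroup.center (Mum D) ≃ₜ* Circle where
  toFun z := (z : Mum D).1
  invFun w := ⟨((w, 0) : Circle × D.X), (center_iff D _).2 rfl⟩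
  left_inv := by
    rintro ⟨z, hz⟩
    apply Subtype.ext
    refine Prod.ext rfl ?_
    exact ((center_iff D z).1 hz).symm
  right_inv := fun w => rfl
  map_mul' := by
    rintro ⟨z, hz⟩ ⟨w, hw⟩
    show z.1 * w.1 * cc D z.2 w.2 = z.1 * w.1
    have h : z.2 = 0 := (center_iff D z).1 hz
    rw [h, cc_zero_left, mul_one]
  continuous_toFun := by
    have h1 : Continuous (fun q : Circle × D.X => q.1) := continuous_fst
    have h2 : Continuous (fun q : Mum D => q.1) := h1
    exact h2.comp continuous_subtype_val
  continuous_invFun := by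
    refine Continuous.subtype_mk ?_ _
    have h1 : Continuous (fun w : Circle => ((w, 0) : Circle × D.X)) :=
      continuous_id.prodMk continuous_const
    exact h1

lemma nil2 (D : Dat ι K) (a b : Mum D) : ⁅a, b⁆ ∈ Subgroup.center (Mum D) := by
  rw [commutator_eq, center_iff]

lemma cen_comm (D : Dat ι K) (a b : Mum D) (h : ⁅a, b⁆ ∈ Subgroup.center (Mum D)) :
    cen D ⟨⁅a, b⁆, h⟩ = cc D a.2 b.2 ^ 2 := by
  have : (⟨⁅a, b⁆, h⟩ : Subgroup.center (Mum D)) =
      ⟨(show Mum D from ((cc D a.2 b.2 ^ 2, 0) : Circle × D.X)), by rw [← commutator_eq]; exact h⟩ := by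
    apply Subtype.ext
    exact commutator_eq D a b
  rw [this]
  rfl

end Pool.Agent.L0h61.MUM
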