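import Mathlib
import Pool.Agent.L0h61.MUM.Quo

open Filter Topology RestrictedProduct
open scoped commutatorElement

namespace Pool.Agent.L0h61.MUM

/-- an isomorphism with a generalized Heisenberg group gives an idempotent endomorphism with
isotropic image and kernel -/
theorem heis_idem {G X A E F : Type*} [Group G] [TopologicalSpace G] [AddCommGroup X]
    [TopologicalSpace X] [AddCommGroup A] [TopologicalSpace A] [AddCommGroup E]
    [TopologicalSpace E] [AddCommGroup F] [TopologicalSpace F]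
    (π : G → X) (hπ : ∀ a b, π (a * b) = π a + π b) (hπc : Continuous π)
    (σ : X → G) (hσc : Continuous σ) (hπσ : ∀ x, π (σ x) = x)
    (hcen : ∀ z : G, z ∈ Subgroup.center G ↔ π z = 0)
    (ω : E → F → A) (hl : ∀ b b' c, ω (b + b') c = ω b c + ω b' c)
    (hr : ∀ b c c', ω b (c + c') = ω b c + ω b c')
    (φ : G ≃ₜ A × E × F)
    (hφ : ∀ x y, φ (x * y) = ((φ x).1 + (φ y).1 + ω (φ x).2.1 (φ y).2.2,
      (φ x).2.1 + (φ y).2.1, (φ x).2.2 + (φ y).2.2)) :
    ∃ e : X →+ X, Continuous e ∧ (∀ x, e (e x) = e x) ∧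
      (∀ x y, ∃ u v : G, π u = e x ∧ π v = e y ∧ u * v = v * u) ∧
      (∀ x y, ∃ u v : G, π u = x - e x ∧ π v = y - e y ∧ u * v = v * u) := by
  have hl0 : ∀ c, ω 0 c = 0 := by
    intro c
    have h := hl 0 0 c
    rw [add_zero] at h
    exact left_eq_add.mp h
  have hr0 : ∀ b, ω b 0 = 0 := by
    intro b
    have h := hr b 0 0
    rw [add_zero] at h
    exact left_eq_add.mp h
  have hψ : ∀ (a a' : A) (b b' : E) (c c' : F),
      φ.symm (a + a' + ω b c', b + b', c + c') = φ.symm (a, b, c) * φ.symm (a', b', c') := by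
    intro a a' b b' c c'
    apply φ.injective
    rw [hφ]
    simp only [Homeomorph.apply_symm_apply]
  -- a criterion for centrality
  have hcc : ∀ (a : A) (b : E) (c : F), (∀ c', ω b c' = 0) → (∀ b', ω b' c = 0) →
      π (φ.symm (a, b, c)) = 0 := by
    intro a b c h1 h2
    rw [← hcen, Subgroup.mem_center_iff]
    intro g
    obtain ⟨⟨a', b', c'⟩, rfl⟩ := φ.symm.surjective g
    rw [← hψ, ← hψ, h1, h2, add_comm a' a, add_comm b' b, add_comm c' c]
  have hA : ∀ a : A, π (φ.symm (a, 0, 0)) = 0 := fun a => hcc a 0 0 hl0 hr0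
  -- components
  have hdec : ∀ (a : A) (b : E) (c : F),
      π (φ.symm (a, b, c)) = π (φ.symm (0, b, 0)) + π (φ.symm (0, 0, c)) := by
    intro a b c
    have h1 := hψ 0 0 b 0 0 c
    have h2 := hψ (a - ω b c) (ω b c) 0 b 0 c
    rw [hl0] at h2
    simp only [add_zero, zero_add, sub_add_cancel] at h1 h2
    rw [h2, hπ, hA, zero_add, h1, hπ]
  have hP : ∀ b b' : E, π (φ.symm (0, b + b', 0)) = π (φ.symm (0, b, 0)) + π (φ.symm (0, b', 0)) := by
    intro b b'
    have h1 := hψ 0 0 b b' 0 0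
    rw [hr0] at h1
    simp only [add_zero] at h1
    rw [h1, hπ]
  have hPcomm : ∀ b b' : E,
      φ.symm (0, b, 0) * φ.symm (0, b', 0) = φ.symm (0, b', 0) * φ.symm (0, b, 0) := by
    intro b b'
    rw [← hψ, ← hψ, hr0, hr0, add_comm b b']
  have hQcomm : ∀ c c' : F,
      φ.symm (0, 0, c) * φ.symm (0, 0, c') = φ.symm (0, 0, c') * φ.symm (0, 0, c) := by
    intro c c'
    rw [← hψ, ← hψ, hl0, hl0, add_comm c c']
  -- the middle component of a central element
  have hcb : ∀ z : G, π z = 0 → π (φ.symm (0, (φ z).2.1, 0)) = 0 := by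
    intro z hz
    apply hcc
    · intro c'
      rw [← hcen, Subgroup.mem_center_iff] at hz
      have h1 := hz (φ.symm (0, 0, c'))
      have h2 := congrArg (fun g => (φ g).1) h1
      simp only [hφ, Homeomorph.apply_symm_apply, hl0, add_zero, zero_add] at h2
      exact (left_eq_add.mp h2)
    · intro b'; exact hr0 b'
  have hgen : ∀ u : G, π (φ.symm (0, (φ u).2.1, 0)) = π (φ.symm (0, (φ (σ (π u))).2.1, 0)) := by
    intro u
    have h1 : π (u * (σ (π u))⁻¹) = 0 := by
      have h2 := hπ (u * (σ (π u))⁻¹) (σ (π u))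
      rw [inv_mul_cancel_right, hπσ] at h2
      exact right_eq_add.mp h2
    have h3 := hcb _ h1
    have h4 : u = (u * (σ (π u))⁻¹) * σ (π u) := by rw [inv_mul_cancel_right]
    have h5 : (φ u).2.1 = (φ (u * (σ (π u))⁻¹)).2.1 + (φ (σ (π u))).2.1 := by
      conv_lhs => rw [h4, hφ]
    rw [h5, hP, h3, zero_add]
  have hadd : ∀ x y : X, π (φ.symm (0, (φ (σ (x + y))).2.1, 0))
      = π (φ.symm (0, (φ (σ x)).2.1, 0)) + π (φ.symm (0, (φ (σ y)).2.1, 0)) := by
    intro x y
    have h1 := hgen (σ x * σ y)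
    rw [hπ, hπσ, hπσ] at h1
    rw [← h1, hφ, hP]
  refine ⟨AddMonoidHom.mk' (fun x => π (φ.symm (0, (φ (σ x)).2.1, 0))) hadd, ?_, ?_, ?_, ?_⟩
  · have h1 : Continuous fun x : X => ((0, (φ (σ x)).2.1, 0) : A × E × F) :=
      continuous_const.prodMk
        ((continuous_fst.comp (continuous_snd.comp (φ.continuous.comp hσc))).prodMk continuous_const)
    exact hπc.comp (φ.symm.continuous.comp h1)
  · intro x
    show π (φ.symm (0, (φ (σ (π (φ.symm (0, (φ (σ x)).2.1, 0))))).2.1, 0)) = _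
    rw [← hgen, Homeomorph.apply_symm_apply]
    rfl
  · intro x y
    exact ⟨_, _, rfl, rfl, hPcomm _ _⟩
  · intro x y
    have key : ∀ x, π (φ.symm (0, 0, (φ (σ x)).2.2)) = x - π (φ.symm (0, (φ (σ x)).2.1, 0)) := by
      intro x
      have h1 := hdec (φ (σ x)).1 (φ (σ x)).2.1 (φ (σ x)).2.2
      have h2 : φ.symm ((φ (σ x)).1, (φ (σ x)).2.1, (φ (σ x)).2.2) = σ x :=
        φ.symm_apply_apply (σ x)
      rw [h2, hπσ] at h1
      rw [eq_sub_iff_add_eq, add_comm]
      exact h1.symm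
    exact ⟨_, _, key x, key y, hQcomm _ _⟩

end Pool.Agent.L0h61.MUM
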