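import Mathlib
import Pool.Agent.L0h61.MUM.Quo

open Filter Topology RestrictedProduct
open scoped commutatorElement

namespace Pool.Agent.L0h61.MUM

variable {ι : Type} {K : ι → Type} [∀ i, AddCommGroup (K i)] [∀ i, TopologicalSpace (K i)]
  [∀ i, DiscreteTopology (K i)] [DecidableEq ι]

omit [∀ i, TopologicalSpace (K i)] [∀ i, DiscreteTopology (K i)] in
lemma e_sg (D : Dat ι K) (hcop : ∀ i j, i ≠ j → Nat.Coprime (D.N i) (D.N j))
    (e : D.X →+ D.X) (i : ι) (x : K i) : e (sg D i x) = sg D i ((e (sg D i x)) i) := by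
  ext j
  by_cases hji : j = i
  · subst hji
    rw [sg_same]
  · rw [sg_ne D hji]
    have h1 : D.N i • ((e (sg D i x)) j) = 0 := by
      have h2 : D.N i • e (sg D i x) = 0 := by
        rw [← map_nsmul, ← map_nsmul, D.tors, map_zero, map_zero]
      exact congrArg (fun z : D.X => z j) h2
    have h2 : D.N j • ((e (sg D i x)) j) = 0 := D.tors j _
    have h3 := addOrderOf_dvd_of_nsmul_eq_zero h1
    have h4 := addOrderOf_dvd_of_nsmul_eq_zero h2
    have h5 := Nat.dvd_gcd h3 h4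
    rw [Nat.Coprime.gcd_eq_one (hcop i j (Ne.symm hji))] at h5
    rw [Nat.dvd_one] at h5
    exact AddMonoid.addOrderOf_eq_one_iff.1 h5

lemma reduce (D : Dat ι K) (hcop : ∀ i j, i ≠ j → Nat.Coprime (D.N i) (D.N j))
    (e : D.X →+ D.X) (hec : Continuous e) (hid : ∀ x, e (e x) = e x)
    (h1 : ∀ x y, cc D (e x) (e y) ^ 2 = 1) (h2 : ∀ x y, cc D (x - e x) (y - e y) ^ 2 = 1) :
    ∃ F : Finset ι, ∀ i ∉ F, ∃ ei : K i →+ K i, (∀ x, ei (ei x) = ei x) ∧
      (∀ x ∈ D.L i, ei x ∈ D.L i) ∧ (∀ x y, D.B i (ei x) (ei y) = 0) ∧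
      (∀ x y, D.B i (x - ei x) (y - ei y) = 0) := by
  have hn : e ⁻¹' {x : D.X | (∀ i ∈ (∅ : Finset ι), x i = 0) ∧ (∀ i, x i ∈ D.L i)}
      ∈ 𝓝 (0 : D.X) := by
    apply hec.continuousAt.preimage_mem_nhds
    rw [map_zero]
    exact basic_nhds D ∅
  obtain ⟨F, hF⟩ := nhds_basic D hn
  refine ⟨F, fun i hi => ?_⟩
  let ei : K i →+ K i :=
    (RestrictedProduct.evalAddMonoidHom (𝓕 := cofinite) (B := D.L) K i).comp (e.comp (sg D i))
  have hei : ∀ x, ei x = (e (sg D i x)) i := fun x => rfl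
  have hes : ∀ x, e (sg D i x) = sg D i (ei x) := fun x => e_sg D hcop e i x
  refine ⟨ei, ?_, ?_, ?_, ?_⟩
  · intro x
    have h3 := hid (sg D i x)
    rw [hes, hes] at h3
    have h4 := congrArg (fun z : D.X => z i) h3
    simp only [sg_same] at h4
    exact h4
  · intro x hx
    have h3 := (hF (sg D i x) ?_ ?_).2 i
    · exact h3
    · intro j hj
      exact sg_ne D (fun h => hi (by rw [← h]; exact hj)) x
    · intro j
      by_cases hji : j = i
      · subst hji; rw [sg_same]; exact hx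
      · rw [sg_ne D hji]; exact (D.L j).zero_mem
  · intro x y
    have h3 := h1 (sg D i x) (sg D i y)
    rw [hes y] at h3
    exact cc_sq_eq_one_comp D _ i _ h3
  · intro x y
    have h3 := h2 (sg D i x) (sg D i y)
    rw [hes x, hes y, ← map_sub, ← map_sub] at h3
    have h4 := cc_sq_eq_one_comp D _ i _ h3
    rw [sg_same] at h4
    exact h4

end Pool.Agent.L0h61.MUM
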