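import Mathlib
import Pool.Agent.L0h61.MUM.Loc
import Pool.Agent.L0h61.MUM.Red
import Pool.Agent.L0h61.MUM.NonH

open Filter Topology RestrictedProduct
open scoped commutatorElement

namespace Pool.Agent.L0h61.MUM

instance (p : ℕ) [NeZero p] : Finite (Kp p) :=
  inferInstanceAs (Finite ((ZMod (p ^ 8) × ZMod (p ^ 8)) × (ZMod (p ^ 4) × ZMod (p ^ 4))))

/-- the odd primes -/
abbrev OP : Type := {p : ℕ // p.Prime ∧ p ≠ 2}

instance (i : OP) : NeZero i.1 := ⟨i.2.1.ne_zero⟩

instance : Infinite OP := by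
  have h : ({p : ℕ | p.Prime} \ {2}).Infinite := Nat.infinite_setOf_prime.diff (Set.finite_singleton 2)
  have h2 : Infinite (({p : ℕ | p.Prime} \ {2} : Set ℕ)) := h.to_subtype
  exact Infinite.of_injective
    (fun x : (({p : ℕ | p.Prime} \ {2} : Set ℕ)) => (⟨x.1, x.2.1, x.2.2⟩ : OP))
    (fun x y hxy => Subtype.ext (congrArg (fun z : OP => z.1) hxy))

/-- the data -/
noncomputable def theD : Dat OP (fun i => Kp i.1) where
  L i := Lp i.1
  B i := fmH i.1
  N i := i.1 ^ 8
  odd i := (i.2.1.odd_of_ne_two i.2.2).pow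
  tors i x := tors_p i.1 x
  alt i x := fmH_self i.1 x
  perp i x := Lp_perp i.1 x
  perfect i χ := fm_perfect i.1 χ
  nondeg i x h := fm_nondeg i.1 x h

lemma theD_cop (i j : OP) (h : i ≠ j) : Nat.Coprime (theD.N i) (theD.N j) := by
  apply Nat.Coprime.pow
  exact (Nat.coprime_primes i.2.1 j.2.1).2 (fun h' => h (Subtype.ext h'))

theorem not_heis {A E F : Type*} [AddCommGroup A] [TopologicalSpace A] [AddCommGroup E]
    [TopologicalSpace E] [AddCommGroup F] [TopologicalSpace F]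
    (ω : E → F → A) (hl : ∀ b b' c, ω (b + b') c = ω b c + ω b' c)
    (hr : ∀ b c c', ω b (c + c') = ω b c + ω b c')
    (φ : Mum theD ≃ₜ A × E × F)
    (hφ : ∀ x y, φ (x * y) = ((φ x).1 + (φ y).1 + ω (φ x).2.1 (φ y).2.2,
      (φ x).2.1 + (φ y).2.1, (φ x).2.2 + (φ y).2.2)) : False := by
  classical
  have hπc : Continuous (fun a : Mum theD => a.2) := prj_continuous theD
  have hσc : Continuous (fun x : theD.X => (show Mum theD from ((1, x) : Circle × theD.X))) :=
    sct_continuous theD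
  obtain ⟨e, hec, hid, h1, h2⟩ := heis_idem (fun a : Mum theD => a.2) (fun a b => rfl) hπc
    (fun x : theD.X => (show Mum theD from ((1, x) : Circle × theD.X))) hσc (fun x => rfl)
    (fun z => center_iff theD z) ω hl hr φ hφ
  have h1' : ∀ x y, cc theD (e x) (e y) ^ 2 = 1 := by
    intro x y
    obtain ⟨u, v, hu, hv, huv⟩ := h1 x y
    rw [commute_iff] at huv
    rw [← hu, ← hv]
    exact huv
  have h2' : ∀ x y, cc theD (x - e x) (y - e y) ^ 2 = 1 := by
    intro x y
    obtain ⟨u, v, hu, hv, huv⟩ := h2 x y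
    rw [commute_iff] at huv
    rw [← hu, ← hv]
    exact huv
  obtain ⟨F, hF⟩ := reduce theD theD_cop e hec hid h1' h2'
  obtain ⟨i, hi⟩ := Infinite.exists_notMem_finset F
  obtain ⟨ei, k1, k2, k3, k4⟩ := hF i hi
  exact nonsplit i.1 i.2.1.one_lt ei k1 k2 k3 k4

end Pool.Agent.L0h61.MUM
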